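import Pool.Agent.W787.PS.StmA

set_option autoImplicit false

/-!
# Project PS: exponential integrability of `w - avg` on the unit disc
-/

open MeasureTheory Set Metric Filter Topology

noncomputable section

namespace Pool.Agent.W933.PS

open Pool.Agent.W787.PS

lemma cutoff : ∃ χ : ℂ → ℝ, ContDiff ℝ 1 χ ∧ HasCompactSupport χ ∧
    tsupport χ ⊆ closedBall 0 (3 / 2) ∧ (∀ x, 0 ≤ χ x) ∧ (∀ x, χ x ≤ 1) ∧
    (∀ x ∈ closedBall (0 : ℂ) 1, χ x = 1) ∧ ∃ K : ℝ, 0 ≤ K ∧ ∀ x, nsq χ x ≤ K := by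
  let f : ContDiffBump (0 : ℂ) := ⟨1, 3 / 2, by norm_num, by norm_num⟩
  have hf : ContDiff ℝ 1 f := f.contDiff
  obtain ⟨M, hM⟩ := (hf.continuous_fderiv one_ne_zero).bounded_above_of_compact_support
    (f.hasCompactSupport.fderiv ℝ)
  refine ⟨f, hf, f.hasCompactSupport, ?_, fun x => f.nonneg, fun x => f.le_one,
    fun x hx => f.one_of_mem_closedBall hx, 2 * M ^ 2, by positivity, fun x => ?_⟩
  · rw [f.tsupport_eq]
  · unfold nsq
    have h1 : |fderiv ℝ f x 1| ≤ M := by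
      refine ((fderiv ℝ f x).le_opNorm 1).trans ?_
      simpa using hM x
    have h2 : |fderiv ℝ f x Complex.I| ≤ M := by
      refine ((fderiv ℝ f x).le_opNorm Complex.I).trans ?_
      simpa using hM x
    have h3 := sq_le_sq' (abs_le.1 h1).1 (abs_le.1 h1).2
    have h4 := sq_le_sq' (abs_le.1 h2).1 (abs_le.1 h2).2
    linarith

lemma sq_bound (χ A B X : ℝ) (h0 : 0 ≤ χ) (h1 : χ ≤ 1) :
    (χ * A + B * X) ^ 2 ≤ 2 * A ^ 2 + 2 * (B ^ 2 * X ^ 2) := by
  have h2 : (χ * A + B * X) ^ 2 ≤ 2 * (χ * A) ^ 2 + 2 * (B * X) ^ 2 := by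
    nlinarith [sq_nonneg (χ * A - B * X)]
  have h3 : χ ^ 2 ≤ 1 := pow_le_one₀ h0 h1
  have h4 : (χ * A) ^ 2 ≤ A ^ 2 := by
    rw [mul_pow]
    exact mul_le_of_le_one_left (sq_nonneg A) h3
  nlinarith

/-- the energy of the cut off function -/
lemma energy (χ : ℂ → ℝ) (hχ : ContDiff ℝ 1 χ)
    (hs : tsupport χ ⊆ closedBall 0 (3 / 2)) (h0 : ∀ x, 0 ≤ χ x) (h1 : ∀ x, χ x ≤ 1) (K : ℝ)
    (hK : ∀ x, nsq χ x ≤ K) (w : ℂ → ℝ) (hw : ContDiffOn ℝ 1 w (ball 0 4)) (c : ℝ)
    (hint : IntegrableOn (nsq w) (ball 0 4)) :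
    ContDiff ℝ 1 (fun x => χ x * (w x - c)) ∧
    ∫ x, nsq (fun x => χ x * (w x - c)) x ≤
      2 * (∫ x in ball (0 : ℂ) 2, nsq w x) + 2 * K * ∫ x in ball (0 : ℂ) 2, (w x - c) ^ 2 := by
  set u : ℂ → ℝ := fun x => χ x * (w x - c) with hu
  have hz : ∀ x : ℂ, 3 / 2 < ‖x‖ → u =ᶠ[𝓝 x] 0 := by
    intro x hx
    have hx' : x ∉ tsupport χ := fun h => by
      have := mem_closedBall_zero_iff.1 (hs h)
      linarith
    filter_upwards [notMem_tsupport_iff_eventuallyEq.1 hx'] with y hy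
    simp only [hu, hy, Pi.zero_apply, zero_mul]
  have hwat : ∀ x : ℂ, ‖x‖ < 4 → ContDiffAt ℝ 1 w x := fun x hx =>
    hw.contDiffAt (isOpen_ball.mem_nhds (mem_ball_zero_iff.2 hx))
  have hcd : ContDiff ℝ 1 u := by
    rw [contDiff_iff_contDiffAt]
    intro x
    by_cases hx : ‖x‖ < 2
    · exact hχ.contDiffAt.mul ((hwat x (by linarith)).sub contDiffAt_const)
    · exact (contDiffAt_const (c := (0 : ℝ))).congr_of_eventuallyEq (hz x (by linarith))
  refine ⟨hcd, ?_⟩
  have hpt : ∀ x ∈ ball (0 : ℂ) 2, nsq u x ≤ 2 * nsq w x + 2 * K * (w x - c) ^ 2 := by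
    intro x hx
    rw [mem_ball_zero_iff] at hx
    have d1 : HasFDerivAt χ (fderiv ℝ χ x) x := (hχ.differentiable one_ne_zero x).hasFDerivAt
    have d2 : HasFDerivAt w (fderiv ℝ w x) x :=
      ((hwat x (by linarith)).differentiableAt one_ne_zero).hasFDerivAt
    have d3 := (d1.mul (d2.sub_const c)).fderiv
    have e : ∀ v : ℂ, fderiv ℝ u x v = χ x * fderiv ℝ w x v + (w x - c) * fderiv ℝ χ x v := by
      intro v
      have : fderiv ℝ u x = χ x • fderiv ℝ w x + (w x - c) • fderiv ℝ χ x := d3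
      rw [this]
      simp
    have b1 := sq_bound (χ x) (fderiv ℝ w x 1) (w x - c) (fderiv ℝ χ x 1) (h0 x) (h1 x)
    have b2 := sq_bound (χ x) (fderiv ℝ w x Complex.I) (w x - c) (fderiv ℝ χ x Complex.I)
      (h0 x) (h1 x)
    have b3 : (w x - c) ^ 2 * nsq χ x ≤ (w x - c) ^ 2 * K :=
      mul_le_mul_of_nonneg_left (hK x) (sq_nonneg _)
    unfold nsq at b3 ⊢
    rw [e, e]
    nlinarith
  have hz2 : ∀ x, x ∉ ball (0 : ℂ) 2 → nsq u x = 0 := by
    intro x hx
    rw [mem_ball_zero_iff, not_lt] at hx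
    have : fderiv ℝ u x = 0 := by
      rw [(hz x (by linarith)).fderiv_eq]
      simp
    unfold nsq
    rw [this]
    simp
  rw [← setIntegral_eq_integral_of_forall_compl_eq_zero hz2]
  have hcw : ContinuousOn w (closedBall 0 2) := hw.continuousOn.mono (closedBall_subset_ball (by norm_num))
  have i1 : IntegrableOn (fun x => 2 * nsq w x) (ball (0 : ℂ) 2) :=
    (hint.mono_set (ball_subset_ball (by norm_num))).const_mul 2
  have i2 : IntegrableOn (fun x => 2 * K * (w x - c) ^ 2) (ball (0 : ℂ) 2) := by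
    have : ContinuousOn (fun x => 2 * K * (w x - c) ^ 2) (closedBall (0 : ℂ) 2) :=
      continuousOn_const.mul ((hcw.sub continuousOn_const).pow 2)
    exact (this.integrableOn_compact (isCompact_closedBall 0 2)).mono_set ball_subset_closedBall
  have i3 : IntegrableOn (nsq u) (ball (0 : ℂ) 2) := by
    have : Continuous (nsq u) := by
      unfold nsq
      have hc := hcd.continuous_fderiv one_ne_zero
      exact ((hc.clm_apply continuous_const).pow 2).add ((hc.clm_apply continuous_const).pow 2)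
    exact (this.continuousOn.integrableOn_compact (isCompact_closedBall 0 2)).mono_set
      ball_subset_closedBall
  calc ∫ x in ball (0 : ℂ) 2, nsq u x
      ≤ ∫ x in ball (0 : ℂ) 2, (2 * nsq w x + 2 * K * (w x - c) ^ 2) :=
        setIntegral_mono_on i3 (i1.add i2) measurableSet_ball hpt
    _ = _ := by
        rw [integral_add i1 i2, integral_const_mul, integral_const_mul]

lemma vol1 : (volume (ball (0 : ℂ) 1)).toReal = Real.pi := by
  rw [Complex.volume_ball]
  simp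

/-- the two averages are close -/
lemma avg_close (w : ℂ → ℝ) (hw : ContDiffOn ℝ 1 w (ball 0 4)) (c : ℝ) :
    |avg w 0 1 - c| ≤ 1 / 2 + (∫ x in ball (0 : ℂ) 2, (w x - c) ^ 2) := by
  have hpi : 0 < Real.pi := Real.pi_pos
  have hcw : ContinuousOn w (closedBall 0 2) := hw.continuousOn.mono (closedBall_subset_ball (by norm_num))
  have i0 : IntegrableOn w (ball (0 : ℂ) 1) :=
    (hcw.integrableOn_compact (isCompact_closedBall 0 2)).mono_set
      ((ball_subset_ball (by norm_num)).trans ball_subset_closedBall)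
  have i2 : IntegrableOn (fun x => (w x - c) ^ 2) (ball (0 : ℂ) 2) := by
    have : ContinuousOn (fun x => (w x - c) ^ 2) (closedBall (0 : ℂ) 2) :=
      (hcw.sub continuousOn_const).pow 2
    exact (this.integrableOn_compact (isCompact_closedBall 0 2)).mono_set ball_subset_closedBall
  have ic : IntegrableOn (fun _ : ℂ => c) (ball (0 : ℂ) 1) :=
    integrableOn_const (by finiteness)
  have i3 : IntegrableOn (fun x => w x - c) (ball (0 : ℂ) 1) := i0.sub ic
  have e1 : avg w 0 1 - c = Real.pi⁻¹ * ∫ x in ball (0 : ℂ) 1, (w x - c) := by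
    rw [integral_sub i0 ic, setIntegral_const]
    unfold avg
    rw [Measure.real, vol1, smul_eq_mul]
    field_simp
  rw [e1, abs_mul, abs_of_pos (inv_pos.2 hpi)]
  have h1 : |∫ x in ball (0 : ℂ) 1, (w x - c)| ≤ ∫ x in ball (0 : ℂ) 1, |w x - c| :=
    abs_integral_le_integral_abs
  have i4 : IntegrableOn (fun x => (w x - c) ^ 2) (ball (0 : ℂ) 1) :=
    i2.mono_set (ball_subset_ball (by norm_num))
  have i5 : IntegrableOn (fun _ : ℂ => (1 / 2 : ℝ)) (ball (0 : ℂ) 1) :=
    integrableOn_const (by finiteness)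
  have h2 : ∫ x in ball (0 : ℂ) 1, |w x - c| ≤
      ∫ x in ball (0 : ℂ) 1, (1 / 2 + 1 / 2 * (w x - c) ^ 2) := by
    refine integral_mono i3.abs (i5.add (i4.const_mul _)) fun x => ?_
    show |w x - c| ≤ 1 / 2 + 1 / 2 * (w x - c) ^ 2
    rw [← sq_abs (w x - c)]
    nlinarith [sq_nonneg (|w x - c| - 1)]
  rw [integral_add i5 (i4.const_mul _), setIntegral_const, integral_const_mul, Measure.real, vol1,
    smul_eq_mul] at h2
  have h3 : ∫ x in ball (0 : ℂ) 1, (w x - c) ^ 2 ≤ ∫ x in ball (0 : ℂ) 2, (w x - c) ^ 2 :=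
    setIntegral_mono_set i2 (Eventually.of_forall fun x => sq_nonneg _)
      (HasSubset.Subset.eventuallyLE (ball_subset_ball (by norm_num)))
  have h4 : 0 ≤ ∫ x in ball (0 : ℂ) 2, (w x - c) ^ 2 :=
    integral_nonneg fun x => sq_nonneg _
  set J := ∫ x in ball (0 : ℂ) 2, (w x - c) ^ 2
  have h5 : |∫ x in ball (0 : ℂ) 1, (w x - c)| ≤ Real.pi * (1 / 2) + 1 / 2 * J := by linarith
  have h6 : Real.pi⁻¹ ≤ 1 := inv_le_one_of_one_le₀ (by linarith [Real.pi_gt_three])
  calc Real.pi⁻¹ * |∫ x in ball (0 : ℂ) 1, (w x - c)|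
      ≤ Real.pi⁻¹ * (Real.pi * (1 / 2) + 1 / 2 * J) :=
        mul_le_mul_of_nonneg_left h5 (inv_pos.2 hpi).le
    _ = 1 / 2 + Real.pi⁻¹ * (1 / 2 * J) := by field_simp
    _ ≤ 1 / 2 + 1 * (1 / 2 * J) := by gcongr
    _ ≤ 1 / 2 + J := by linarith

theorem w1 (h1 : S_EXPC) (h2 : S_POI) : S_W1 := by
  obtain ⟨c0, hc0, hE⟩ := h1
  obtain ⟨CP, hCP, hP⟩ := h2
  obtain ⟨χ, hχ1, hχc, hχs, hχ0, hχle, hχone, K, hK0, hK⟩ := cutoff
  intro q hq
  set A : ℝ := 2 + 8 * K * CP with hA
  have hA0 : 0 < A := by positivity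
  have hsA : 0 < Real.sqrt A := Real.sqrt_pos.2 hA0
  set ε : ℝ := min 1 (c0 / (q * Real.sqrt A)) with hε
  have hε0 : 0 < ε := lt_min one_pos (by positivity)
  have hε1 : ε ≤ 1 := min_le_left _ _
  have hεc : q * (Real.sqrt A * ε) ≤ c0 := by
    have : ε ≤ c0 / (q * Real.sqrt A) := min_le_right _ _
    rw [le_div_iff₀ (by positivity)] at this
    nlinarith
  set V : ℝ := 4 * (volume (closedBall (0 : ℂ) 2)).toReal with hV
  have hV0 : 0 ≤ V := by positivity
  set B : ℝ := 1 / 2 + 4 * CP with hB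
  refine ⟨ε, Real.exp (q * B) * V + 1, hε0, by positivity, fun w hw hint hen => ?_⟩
  set c : ℝ := avg w 0 2 with hc
  have hJ : ∫ x in ball (0 : ℂ) 2, (w x - c) ^ 2 ≤ CP * 2 ^ 2 * ∫ x in ball (0 : ℂ) 2, nsq w x :=
    hP w 0 2 4 (by norm_num) (by norm_num) hw
  have hN : ∫ x in ball (0 : ℂ) 2, nsq w x ≤ ε ^ 2 := by
    refine le_trans (setIntegral_mono_set hint (Eventually.of_forall fun x => ?_)
      (HasSubset.Subset.eventuallyLE (ball_subset_ball (by norm_num)))) hen
    show 0 ≤ nsq w x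
    unfold nsq
    positivity
  have hN2 : CP * 2 ^ 2 * ∫ x in ball (0 : ℂ) 2, nsq w x ≤ 4 * CP * ε ^ 2 := by
    have : CP * 2 ^ 2 * ∫ x in ball (0 : ℂ) 2, nsq w x ≤ CP * 2 ^ 2 * ε ^ 2 :=
      mul_le_mul_of_nonneg_left hN (by positivity)
    linarith
  have hJ2 : ∫ x in ball (0 : ℂ) 2, (w x - c) ^ 2 ≤ 4 * CP * ε ^ 2 := hJ.trans hN2
  have hεsq : ε ^ 2 ≤ 1 := pow_le_one₀ hε0.le hε1
  have hBb : |avg w 0 1 - c| ≤ B := by
    refine (avg_close w hw c).trans ?_
    have : 4 * CP * ε ^ 2 ≤ 4 * CP * 1 := mul_le_mul_of_nonneg_left hεsq (by positivity)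
    linarith
  obtain ⟨hcd, hen2⟩ := energy χ hχ1 hχs hχ0 hχle K hK w hw c hint
  set u : ℂ → ℝ := fun x => χ x * (w x - c) with hu
  have huE : ∫ x, nsq u x ≤ (Real.sqrt A * ε) ^ 2 := by
    rw [mul_pow, Real.sq_sqrt hA0.le]
    refine hen2.trans ?_
    have : 2 * K * ∫ x in ball (0 : ℂ) 2, (w x - c) ^ 2 ≤ 2 * K * (4 * CP * ε ^ 2) :=
      mul_le_mul_of_nonneg_left hJ2 (by positivity)
    rw [hA]
    nlinarith
  have hsub : tsupport u ⊆ closedBall 0 2 :=
    (tsupport_mul_subset_left).trans (hχs.trans (closedBall_subset_closedBall (by norm_num)))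
  have hexp := hE u hcd hχc.mul_right (closedBall 0 2) measurableSet_closedBall
    (isCompact_closedBall 0 2).measure_lt_top.ne
    hsub q (Real.sqrt A * ε) hq.le (by positivity) hεc huE
  have hcu : Continuous (fun x => Real.exp (q * |u x|)) :=
    Real.continuous_exp.comp (continuous_const.mul hcd.continuous.abs)
  have iu : IntegrableOn (fun x => Real.exp (q * |u x|)) (closedBall (0 : ℂ) 2) :=
    hcu.continuousOn.integrableOn_compact (isCompact_closedBall 0 2)
  have hstep : ∫ x in ball (0 : ℂ) 1, Real.exp (q * |u x|) ≤ V := by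
    refine le_trans (setIntegral_mono_set iu (Eventually.of_forall fun x => (Real.exp_pos _).le)
      (HasSubset.Subset.eventuallyLE ?_)) hexp
    exact (ball_subset_ball (by norm_num)).trans ball_subset_closedBall
  have hcw : ContinuousOn w (closedBall 0 1) :=
    hw.continuousOn.mono (closedBall_subset_ball (by norm_num))
  have i1 : IntegrableOn (fun x => Real.exp (q * |w x - avg w 0 1|)) (ball (0 : ℂ) 1) := by
    have : ContinuousOn (fun x => Real.exp (q * |w x - avg w 0 1|)) (closedBall (0 : ℂ) 1) :=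
      Real.continuous_exp.comp_continuousOn
        (continuousOn_const.mul (hcw.sub continuousOn_const).abs)
    exact (this.integrableOn_compact (isCompact_closedBall 0 1)).mono_set ball_subset_closedBall
  have i2 : IntegrableOn (fun x => Real.exp (q * B) * Real.exp (q * |u x|)) (ball (0 : ℂ) 1) :=
    (iu.mono_set ((ball_subset_ball (by norm_num)).trans ball_subset_closedBall)).const_mul _
  have hfin : ∫ x in ball (0 : ℂ) 1, Real.exp (q * |w x - avg w 0 1|) ≤
      ∫ x in ball (0 : ℂ) 1, Real.exp (q * B) * Real.exp (q * |u x|) := by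
    refine setIntegral_mono_on i1 i2 measurableSet_ball fun x hx => ?_
    rw [← Real.exp_add, Real.exp_le_exp, ← mul_add]
    refine mul_le_mul_of_nonneg_left ?_ hq.le
    have hux : u x = w x - c := by
      simp only [hu]
      rw [hχone x (ball_subset_closedBall hx), one_mul]
    rw [hux]
    have e : w x - avg w 0 1 = -(avg w 0 1 - c) + (w x - c) := by ring
    rw [e]
    refine (abs_add_le _ _).trans ?_
    rw [abs_neg]
    linarith
  rw [integral_const_mul] at hfin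
  have := mul_le_mul_of_nonneg_left hstep (Real.exp_pos (q * B)).le
  linarith

end Pool.Agent.W933.PS
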